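import Pool.Agent.helper53.ORT.Spec

set_option autoImplicit false

namespace Pool.Agent.ORT

open Module Pool.Agent.GS

theorem KX_two {F : Type} [Field F] (h2 : ringChar F ≠ 2) : (2 : F) ≠ 0 := Ring.two_ne_zero h2

theorem KX (obs : OBS_stmt) (bf : GS.BF_stmt) : KX_stmt := by
  intro F V K _ _ _ _ _ _ _ _ _ B h2 hB k hk β σ j hd
  have h20 : (2 : F) ≠ 0 := Ring.two_ne_zero h2
  have h2K : (2 : K) ≠ 0 := by
    intro h
    apply h20
    apply (algebraMap F K).injective
    rw [map_ofNat, map_zero]; exact h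
  have htr : ∀ x : K, (∀ c : K, Algebra.trace F K (β * x * c) = 0) → x = 0 := by
    intro x hx
    have h1 := ((bf (F := F) (K := K)).1 β⁻¹ (inv_ne_zero hd.b0)).nd x
    apply h1
    intro y
    have : Pool.Agent.GS.bf F K β⁻¹ x y = Algebra.trace F K (β⁻¹⁻¹ * x * y) := rfl
    rw [this, inv_inv]
    exact hx y
  have hadd : ∀ u v, k (u + v) = k u + k v := hk.1.1
  have hsmul : ∀ (c : F) v, k (c • v) = c • k v := hk.1.2
  have hiso : ∀ u v, B (k u) (k v) = B u v := hk.2
  have htwo : ∀ x : K, (2 : F) * Algebra.trace F K x = Algebra.trace F K (2 * x) := by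
    intro x; rw [two_mul, two_mul, map_add]
  have hnd : ∀ P Q : K, (∀ c, B (j P + k (j Q)) (j c) = 0) →
      (∀ c, B (j P + k (j Q)) (k (j c)) = 0) → P = 0 ∧ Q = 0 := by
    intro P Q hA hC
    have e1 : 2 * P + σ * Q = 0 := by
      apply htr
      intro c
      have h1 := hA c
      rw [map_add, LinearMap.add_apply] at h1
      have h3 : (2 : F) * B (j P) (j c) + 2 * B (k (j Q)) (j c) = 0 := by
        rw [← mul_add, h1, mul_zero]
      rw [hd.f1, hd.f2, htwo, ← map_add] at h3
      rw [← h3]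
      congr 1
      ring
    have e2 : σ * P + 2 * Q = 0 := by
      apply htr
      intro c
      have h1 := hC c
      rw [map_add, LinearMap.add_apply, hiso, hB.symm (j P)] at h1
      have h3 : (2 : F) * B (k (j c)) (j P) + 2 * B (j Q) (j c) = 0 := by
        rw [← mul_add, h1, mul_zero]
      rw [hd.f2, hd.f1, htwo, ← map_add] at h3
      rw [← h3]
      congr 1
      ring
    have e3 : (4 - σ ^ 2) * Q = 0 := by linear_combination 2 * e2 - σ * e1
    have hQ : Q = 0 := by
      rcases mul_eq_zero.1 e3 with h | h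
      · exact absurd (sub_eq_zero.1 h).symm hd.s4
      · exact h
    have hP : P = 0 := by
      rw [hQ, mul_zero, add_zero] at e1
      exact (mul_eq_zero.1 e1).resolve_left h2K
    exact ⟨hP, hQ⟩
  let kL : V →ₗ[F] V := { toFun := k, map_add' := hadd, map_smul' := hsmul }
  let Φ : K × K →ₗ[F] V := LinearMap.coprod j (kL ∘ₗ j)
  have hΦ : ∀ P Q, Φ (P, Q) = j P + k (j Q) := fun P Q => rfl
  have hinj : Function.Injective Φ := by
    rw [← LinearMap.ker_eq_bot, LinearMap.ker_eq_bot']
    rintro ⟨P, Q⟩ h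
    rw [hΦ] at h
    obtain ⟨hP, hQ⟩ := hnd P Q (fun c => by rw [h, map_zero, LinearMap.zero_apply])
      (fun c => by rw [h, map_zero, LinearMap.zero_apply])
    rw [hP, hQ]; rfl
  have hfr : finrank F (K × K) = 2 * finrank F K := by
    rw [Module.finrank_prod, two_mul]
  let W : Submodule F V := LinearMap.range Φ
  have hW : finrank F W = 2 * finrank F K := by
    rw [← hfr]; exact LinearMap.finrank_range_of_inj hinj
  have hle : 2 * finrank F K ≤ finrank F V := by
    rw [← hW]; exact Submodule.finrank_le W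
  refine ⟨hle, ?_⟩
  intro τ hτ
  have hrefl : B.IsRefl := fun x y h => by rw [hB.symm]; exact h
  have hjW : ∀ c, j c ∈ W := fun c => ⟨(c, 0), by rw [hΦ, map_zero]; simp [show k 0 = 0 from kL.map_zero]⟩
  have hkW : ∀ c, k (j c) ∈ W := fun c => ⟨(0, c), by rw [hΦ, map_zero, zero_add]⟩
  have hdis : Disjoint W (B.orthogonal W) := by
    rw [Submodule.disjoint_def]
    rintro x ⟨⟨P, Q⟩, rfl⟩ hx
    rw [LinearMap.BilinForm.mem_orthogonal_iff] at hx
    rw [hΦ] at hx ⊢
    obtain ⟨hP, hQ⟩ := hnd P Q (fun c => by rw [hB.symm]; exact hx _ (hjW c))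
      (fun c => by rw [hB.symm]; exact hx _ (hkW c))
    rw [hP, hQ, map_zero, zero_add]
    exact kL.map_zero
  have hc : IsCompl W (B.orthogonal W) :=
    LinearMap.BilinForm.isCompl_orthogonal_of_restrict_nondegenerate hrefl
      (B.nondegenerate_restrict_of_disjoint_orthogonal hrefl hdis)
  have hfin : finrank F W + finrank F (B.orthogonal W) = finrank F V :=
    Submodule.finrank_add_eq_of_isCompl hc
  have hHnd : ∀ x ∈ B.orthogonal W, (∀ y ∈ B.orthogonal W, B x y = 0) → x = 0 := by
    intro x hx hy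
    apply hB.nd
    intro v
    have hv : v ∈ W ⊔ B.orthogonal W := by rw [hc.sup_eq_top]; exact Submodule.mem_top
    obtain ⟨w, hw, z, hz, rfl⟩ := Submodule.mem_sup.1 hv
    rw [map_add, hy z hz, add_zero, hB.symm]
    exact (LinearMap.BilinForm.mem_orthogonal_iff.1 hx) w hw
  obtain ⟨a, ha, hspan⟩ := obs B h2 hB (B.orthogonal W) hHnd
  have hτ' : τ ≤ finrank F (B.orthogonal W) := by omega
  refine ⟨fun i => a (Fin.castLE hτ' i), ha.comp (Fin.castLE_injective hτ'), ?_⟩
  intro c i
  have hall : ∀ l, a l ∈ B.orthogonal W := fun l => by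
    have h1 : a l ∈ Submodule.span F (Set.range a) := Submodule.subset_span ⟨l, rfl⟩
    rwa [hspan] at h1
  have hi := hall (Fin.castLE hτ' i)
  rw [LinearMap.BilinForm.mem_orthogonal_iff] at hi
  exact ⟨hi _ (hjW c), hi _ (hkW c)⟩

end Pool.Agent.ORT
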